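import Mathlib

set_option autoImplicit false

/-! Riemannian metrics on open subsets of coordinate space, the curvature tensor, its iterated
covariant derivatives, and the linear differential conditions `KS` of order `r`. -/

namespace Pool.Agent.R710.KS

open scoped ContDiff

/-- Points of the coordinate space of dimension `n`. -/
abbrev Pt (n : ℕ) := Fin n → ℝ

/-- The partial derivative of `f` in the direction of the `i`-th coordinate. -/
noncomputable def pd {n : ℕ} (i : Fin n) (f : Pt n → ℝ) (x : Pt n) : ℝ :=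
  fderiv ℝ f x (Pi.single i 1)

/-- `g` (given by its components `g i j`) is a smooth Riemannian metric on `U`. -/
structure IsRiemannian {n : ℕ} (U : Set (Pt n)) (g : Fin n → Fin n → Pt n → ℝ) : Prop where
  smooth : ∀ i j, ContDiffOn ℝ ∞ (g i j) U
  symm : ∀ i j, ∀ x ∈ U, g i j x = g j i x
  pos : ∀ x ∈ U, ∀ v : Fin n → ℝ, v ≠ 0 → 0 < ∑ i, ∑ j, g i j x * v i * v j

/-- The components of the inverse metric. -/
noncomputable def ginv {n : ℕ} (g : Fin n → Fin n → Pt n → ℝ) (i j : Fin n) (x : Pt n) : ℝ :=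
  (Matrix.of fun a b => g a b x)⁻¹ i j

/-- The Christoffel symbol `Γ^k_{ij}` of the Levi-Civita connection. -/
noncomputable def Chr {n : ℕ} (g : Fin n → Fin n → Pt n → ℝ) (k i j : Fin n) (x : Pt n) : ℝ :=
  (1 / 2) * ∑ l, ginv g k l x * (pd i (g j l) x + pd j (g i l) x - pd l (g i j) x)

/-- The curvature tensor: `R(∂_m, ∂_v) ∂_b = ∑ a, Riem g a b m v • ∂_a`. -/
noncomputable def Riem {n : ℕ} (g : Fin n → Fin n → Pt n → ℝ) (a b m v : Fin n) (x : Pt n) : ℝ :=
  pd m (Chr g a v b) x - pd v (Chr g a m b) x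
    + ∑ k, Chr g a m k x * Chr g k v b x - ∑ k, Chr g a v k x * Chr g k m b x

/-- The covariant derivative of a tensor field with components `T L a b m v`; here `L` is a list of
covariant indices, `a` is a contravariant index, and `b, m, v` are covariant indices. The index of
the derivative is put in front of the list. -/
noncomputable def covD {n : ℕ} (g : Fin n → Fin n → Pt n → ℝ)
    (T : List (Fin n) → Fin n → Fin n → Fin n → Fin n → Pt n → ℝ) :
    List (Fin n) → Fin n → Fin n → Fin n → Fin n → Pt n → ℝ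
  | [], _, _, _, _, _ => 0
  | i :: L, a, b, m, v, x => pd i (T L a b m v) x
      + ∑ k, Chr g a i k x * T L k b m v x
      - ∑ k, Chr g k i b x * T L a k m v x
      - ∑ k, Chr g k i m x * T L a b k v x
      - ∑ k, Chr g k i v x * T L a b m k x
      - ∑ j : Fin L.length, ∑ k, Chr g k i (L.get j) x * T (L.set j k) a b m v x

/-- `nablaR g r [l_1, …, l_r] a b m v` is `∇_{l_1} ⋯ ∇_{l_r} R^a_{b m v}`. -/
noncomputable def nablaR {n : ℕ} (g : Fin n → Fin n → Pt n → ℝ) :
    ℕ → List (Fin n) → Fin n → Fin n → Fin n → Fin n → Pt n → ℝ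
  | 0 => fun _ => Riem g
  | r + 1 => covD g (nablaR g r)

/-- The condition defining the `KS` manifolds of order `r`, for the metric `g` on `U`: there are
smooth covariant tensor fields `t 1, …, t r` on `U`, `t m` of rank `m`, with
`∇^r R + t^(1) ⊗ ∇^(r-1) R + ⋯ + t^(r) ⊗ R = 0`. -/
def IsKS {n : ℕ} (U : Set (Pt n)) (g : Fin n → Fin n → Pt n → ℝ) (r : ℕ) : Prop :=
  ∃ t : ℕ → List (Fin n) → Pt n → ℝ,
    (∀ m ∈ Finset.Icc 1 r, ∀ L : List (Fin n), L.length = m → ContDiffOn ℝ ∞ (t m L) U) ∧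
    ∀ L : List (Fin n), L.length = r → ∀ a b c d : Fin n, ∀ x ∈ U,
      nablaR g r L a b c d x
        + ∑ m ∈ Finset.Icc 1 r, t m (L.take m) x * nablaR g (r - m) (L.drop m) a b c d x = 0

/-- `∇R = 0` on `U`. -/
def IsLocSymm {n : ℕ} (U : Set (Pt n)) (g : Fin n → Fin n → Pt n → ℝ) : Prop :=
  ∀ i a b c d : Fin n, ∀ x ∈ U, nablaR g 1 [i] a b c d x = 0

end Pool.Agent.R710.KS
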