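import Mathlib
import Pool.Agent.R710.KS.Defs

set_option autoImplicit false

namespace Pool.Agent.R710.KS

open scoped ContDiff

/-! The example: the half space `x 0 > 0` with the metric
`ds² + s⁻⁶ dθ² + du² + e^(2u) dv²`. -/

def U4 : Set (Pt 4) := {x | 0 < x 0}

noncomputable def dg (i : Fin 4) (x : Pt 4) : ℝ :=
  if i = 1 then ((x 0)⁻¹) ^ 6 else if i = 3 then Real.exp (2 * x 2) else 1

noncomputable def g4 (i j : Fin 4) (x : Pt 4) : ℝ := if i = j then dg i x else 0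

theorem pd_const {n : ℕ} (i : Fin n) (c : ℝ) (x : Pt n) : pd i (fun _ => c) x = 0 := by
  unfold pd
  simp

theorem pd_coord {n : ℕ} (i j : Fin n) (F : ℝ → ℝ) (F' : ℝ) (x : Pt n)
    (h : HasDerivAt F F' (x j)) : pd i (fun y => F (y j)) x = if i = j then F' else 0 := by
  unfold pd
  have h1 : HasFDerivAt (fun y : Pt n => y j) (ContinuousLinearMap.proj (R := ℝ) (φ := fun _ : Fin n => ℝ) j) x :=
    (ContinuousLinearMap.proj (R := ℝ) (φ := fun _ : Fin n => ℝ) j).hasFDerivAt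
  have h2 := h.comp_hasFDerivAt x h1
  have h3 : (fun y : Pt n => F (y j)) = F ∘ fun y : Pt n => y j := rfl
  rw [h3, h2.fderiv]
  by_cases hij : i = j
  · subst hij
    simp
  · simp [hij, Ne.symm hij]

theorem pd_congr {n : ℕ} {U : Set (Pt n)} (hU : IsOpen U) (i : Fin n) {f f' : Pt n → ℝ}
    (h : ∀ y ∈ U, f y = f' y) {x : Pt n} (hx : x ∈ U) : pd i f x = pd i f' x := by
  unfold pd
  have : f =ᶠ[nhds x] f' := by
    filter_upwards [hU.mem_nhds hx] with y hy using h y hy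
  rw [this.fderiv_eq]

theorem isOpen_U4 : IsOpen U4 := isOpen_lt continuous_const (continuous_apply 0)

theorem hd_inv {k : ℕ} {s : ℝ} (hs : s ≠ 0) :
    HasDerivAt (fun s : ℝ => (s⁻¹) ^ (k + 1)) (-((k : ℝ) + 1) * (s⁻¹) ^ (k + 2)) s := by
  have h1 := (hasDerivAt_inv hs).pow (k + 1)
  refine HasDerivAt.congr_deriv h1 ?_
  rw [show k + 1 - 1 = k by omega, ← inv_pow]
  push_cast
  ring

theorem pd_inv (i : Fin 4) (k : ℕ) (c : ℝ) {x : Pt 4} (hx : x ∈ U4) :
    pd i (fun y => c * ((y 0)⁻¹) ^ (k + 1)) x =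
      if i = 0 then c * (-((k : ℝ) + 1) * ((x 0)⁻¹) ^ (k + 2)) else 0 := by
  have h0 : x 0 ≠ 0 := ne_of_gt hx
  exact pd_coord i 0 (fun s => c * (s⁻¹) ^ (k + 1)) _ x ((hd_inv h0).const_mul c)

theorem pd_exp (i : Fin 4) (c : ℝ) (x : Pt 4) :
    pd i (fun y => c * Real.exp (2 * y 2)) x =
      if i = 2 then c * (2 * Real.exp (2 * x 2)) else 0 := by
  refine pd_coord i 2 (fun s => c * Real.exp (2 * s)) _ x ?_
  have h1 : HasDerivAt (fun s : ℝ => 2 * s) 2 (x 2) := by
    simpa using (hasDerivAt_id (x 2)).const_mul (2 : ℝ)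
  have h2 := h1.exp.const_mul c
  refine HasDerivAt.congr_deriv h2 ?_
  rw [mul_comm (Real.exp _) 2]

theorem dg_ne (i : Fin 4) {x : Pt 4} (hx : x ∈ U4) : dg i x ≠ 0 := by
  have h0 : x 0 ≠ 0 := ne_of_gt hx
  unfold dg
  split_ifs
  · positivity
  · positivity
  · norm_num

theorem dg_pos (i : Fin 4) {x : Pt 4} (hx : x ∈ U4) : 0 < dg i x := by
  have h0 : 0 < x 0 := hx
  unfold dg
  split_ifs
  · positivity
  · positivity
  · norm_num

theorem ginv_eq (i j : Fin 4) {x : Pt 4} (hx : x ∈ U4) :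
    ginv g4 i j x = if i = j then (dg i x)⁻¹ else 0 := by
  unfold ginv
  have h1 : (Matrix.of fun a b => g4 a b x) = Matrix.diagonal (fun i => dg i x) := by
    ext a b
    simp only [Matrix.of_apply, g4, Matrix.diagonal_apply]
  have h2 : (Matrix.diagonal (fun i => dg i x))⁻¹ = Matrix.diagonal (fun i => (dg i x)⁻¹) := by
    apply Matrix.inv_eq_right_inv
    rw [Matrix.diagonal_mul_diagonal]
    have : (fun i => dg i x * (dg i x)⁻¹) = fun _ => 1 := by
      funext i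
      exact mul_inv_cancel₀ (dg_ne i hx)
    rw [this, Matrix.diagonal_one]
  rw [h1, h2, Matrix.diagonal_apply]

/-- derivatives of the diagonal entries -/
noncomputable def dgd (i j : Fin 4) (x : Pt 4) : ℝ :=
  if i = 0 ∧ j = 1 then -6 * ((x 0)⁻¹) ^ 7
  else if i = 2 ∧ j = 3 then 2 * Real.exp (2 * x 2) else 0

theorem pd_dg (i j : Fin 4) {x : Pt 4} (hx : x ∈ U4) : pd i (dg j) x = dgd i j x := by
  unfold dgd
  by_cases h1 : j = 1
  · subst h1
    have : dg 1 = fun y => 1 * ((y 0)⁻¹) ^ (5 + 1) := by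
      funext y
      simp [dg]
    rw [this, pd_inv i 5 1 hx]
    simp only [and_true]
    by_cases hi : i = 0
    · simp [hi]
      ring
    · simp [hi]
  · by_cases h3 : j = 3
    · subst h3
      have : dg 3 = fun y => 1 * Real.exp (2 * y 2) := by
        funext y
        simp [dg]
      rw [this, pd_exp i 1 x]
      by_cases hi : i = 2
      · simp [hi]
      · simp [hi]
    · have : dg j = fun _ => 1 := by
        funext y
        simp [dg, h1, h3]
      rw [this, pd_const]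
      simp [h1, h3]

theorem pd_g (i j k : Fin 4) {x : Pt 4} (hx : x ∈ U4) :
    pd i (g4 j k) x = if j = k then dgd i j x else 0 := by
  by_cases h : j = k
  · subst h
    have : g4 j j = dg j := by
      funext y
      simp [g4]
    rw [this, pd_dg i j hx]
    simp
  · have : g4 j k = fun _ => 0 := by
      funext y
      simp [g4, h]
    rw [this, pd_const]
    simp [h]

/-- the Christoffel symbols -/
noncomputable def γ (k i j : Fin 4) (x : Pt 4) : ℝ :=
  if k = 0 ∧ i = 1 ∧ j = 1 then 3 * ((x 0)⁻¹) ^ 7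
  else if k = 1 ∧ ((i = 0 ∧ j = 1) ∨ (i = 1 ∧ j = 0)) then -3 * ((x 0)⁻¹) ^ 1
  else if k = 2 ∧ i = 3 ∧ j = 3 then -1 * Real.exp (2 * x 2)
  else if k = 3 ∧ ((i = 2 ∧ j = 3) ∨ (i = 3 ∧ j = 2)) then 1 else 0

theorem chr_eq (k i j : Fin 4) {x : Pt 4} (hx : x ∈ U4) : Chr g4 k i j x = γ k i j x := by
  have h0 : x 0 ≠ 0 := ne_of_gt hx
  have he : Real.exp (2 * x 2) ≠ 0 := (Real.exp_pos _).ne'
  unfold Chr
  simp only [ginv_eq _ _ hx, pd_g _ _ _ hx]
  fin_cases k <;> fin_cases i <;> fin_cases j <;>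
    simp [Fin.sum_univ_four, dgd, dg, γ] <;> field_simp <;> norm_num

/-- derivatives of the Christoffel symbols -/
noncomputable def dγ (m k i j : Fin 4) (x : Pt 4) : ℝ :=
  if m = 0 ∧ k = 0 ∧ i = 1 ∧ j = 1 then -21 * ((x 0)⁻¹) ^ 8
  else if m = 0 ∧ k = 1 ∧ ((i = 0 ∧ j = 1) ∨ (i = 1 ∧ j = 0)) then 3 * ((x 0)⁻¹) ^ 2
  else if m = 2 ∧ k = 2 ∧ i = 3 ∧ j = 3 then -2 * Real.exp (2 * x 2) else 0

theorem pd_γ (m k i j : Fin 4) {x : Pt 4} (hx : x ∈ U4) : pd m (γ k i j) x = dγ m k i j x := by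
  by_cases h1 : k = 0 ∧ i = 1 ∧ j = 1
  · obtain ⟨rfl, rfl, rfl⟩ := h1
    have : γ 0 1 1 = fun y => 3 * ((y 0)⁻¹) ^ (6 + 1) := by
      funext y
      simp [γ]
    rw [this, pd_inv m 6 3 hx]
    by_cases hm : m = 0
    · simp [hm, dγ]
      ring
    · simp [hm, dγ]
  by_cases h2 : k = 1 ∧ ((i = 0 ∧ j = 1) ∨ (i = 1 ∧ j = 0))
  · have : γ k i j = fun y => (-3) * ((y 0)⁻¹) ^ (0 + 1) := by
      funext y
      unfold γ
      rw [if_neg h1, if_pos h2]
    rw [this, pd_inv m 0 (-3) hx]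
    obtain ⟨rfl, h2⟩ := h2
    by_cases hm : m = 0
    · simp [hm, dγ, h2]
    · simp [hm, dγ]
  by_cases h3 : k = 2 ∧ i = 3 ∧ j = 3
  · obtain ⟨rfl, rfl, rfl⟩ := h3
    have : γ 2 3 3 = fun y => (-1) * Real.exp (2 * y 2) := by
      funext y
      simp [γ]
    rw [this, pd_exp m (-1) x]
    by_cases hm : m = 2
    · simp [hm, dγ]
    · simp [hm, dγ]
  · have : γ k i j = fun _ =>
        if k = 3 ∧ ((i = 2 ∧ j = 3) ∨ (i = 3 ∧ j = 2)) then 1 else 0 := by
      funext y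
      unfold γ
      rw [if_neg h1, if_neg h2, if_neg h3]
    rw [this, pd_const]
    unfold dγ
    rw [if_neg (fun h => h1 h.2), if_neg (fun h => h2 h.2), if_neg (fun h => h3 h.2)]

theorem pd_chr (m k i j : Fin 4) {x : Pt 4} (hx : x ∈ U4) :
    pd m (Chr g4 k i j) x = dγ m k i j x := by
  rw [pd_congr isOpen_U4 m (fun y hy => chr_eq k i j hy) hx, pd_γ m k i j hx]

/-- block parts of the identity: `blk 0` for the first factor, `blk 1` for the second one -/
def blk (e : Fin 2) (i : Fin 4) : Prop := if e = 0 then (i = 0 ∨ i = 1) else (i = 2 ∨ i = 3)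

instance (e : Fin 2) (i : Fin 4) : Decidable (blk e i) := by
  unfold blk
  infer_instance

/-- the projection to a factor -/
def prj (e : Fin 2) (a m : Fin 4) : ℝ := if a = m ∧ blk e a then 1 else 0

/-- the metric of a factor -/
noncomputable def gb (e : Fin 2) (i j : Fin 4) (x : Pt 4) : ℝ := if blk e i then g4 i j x else 0

/-- the algebraic curvature tensor of a factor -/
noncomputable def om (e : Fin 2) (a b m v : Fin 4) (x : Pt 4) : ℝ :=
  prj e a m * gb e b v x - prj e a v * gb e b m x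

end Pool.Agent.R710.KS
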