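import Mathlib
import Pool.Agent.R710.KS.Ex

set_option autoImplicit false

namespace Pool.Agent.R710.KS

open scoped ContDiff

/-- the Gauss curvature of the first factor -/
noncomputable def KK (x : Pt 4) : ℝ := -12 * ((x 0)⁻¹) ^ 2

set_option maxHeartbeats 0 in
theorem riem_eq (a b m v : Fin 4) {x : Pt 4} (hx : x ∈ U4) :
    Riem g4 a b m v x = KK x * om 0 a b m v x - om 1 a b m v x := by
  have h0 : x 0 ≠ 0 := ne_of_gt hx
  unfold Riem
  simp only [pd_chr _ _ _ _ hx, chr_eq _ _ _ hx, Fin.sum_univ_four]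
  fin_cases a <;> fin_cases b <;> fin_cases m <;> fin_cases v <;>
    simp [dγ, γ, om, prj, gb, blk, g4, dg, KK] <;> ring


theorem gb_eq (e : Fin 2) (i j : Fin 4) (x : Pt 4) :
    gb e i j x = if blk e i then g4 i j x else 0 := rfl

/-- derivative of the block metric -/
theorem pd_gb (e : Fin 2) (i j k : Fin 4) {x : Pt 4} (hx : x ∈ U4) :
    pd i (gb e j k) x = if blk e j then (if j = k then dgd i j x else 0) else 0 := by
  by_cases h : blk e j
  · have : gb e j k = g4 j k := by
      funext y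
      simp [gb, h]
    rw [this, pd_g i j k hx, if_pos h]
  · have : gb e j k = fun _ => 0 := by
      funext y
      simp [gb, h]
    rw [this, pd_const, if_neg h]

set_option maxHeartbeats 0 in
theorem par_g (e : Fin 2) (i j k : Fin 4) {x : Pt 4} (hx : x ∈ U4) :
    pd i (gb e j k) x = ∑ l, γ l i j x * gb e l k x + ∑ l, γ l i k x * gb e j l x := by
  have h0 : x 0 ≠ 0 := ne_of_gt hx
  rw [pd_gb e i j k hx]
  fin_cases e <;> fin_cases i <;> fin_cases j <;> fin_cases k <;>
    simp [Fin.sum_univ_four, dgd, γ, gb, blk, g4, dg] <;> ring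

set_option maxHeartbeats 0 in
theorem par_prj (e : Fin 2) (i a m : Fin 4) (x : Pt 4) :
    ∑ l, γ a i l x * prj e l m = ∑ l, γ l i m x * prj e a l := by
  fin_cases e <;> fin_cases i <;> fin_cases a <;> fin_cases m <;>
    simp [Fin.sum_univ_four, γ, prj, blk]

theorem diff_gb (e : Fin 2) (j k : Fin 4) {x : Pt 4} (hx : x ∈ U4) :
    DifferentiableAt ℝ (gb e j k) x := by
  have h0 : x 0 ≠ 0 := ne_of_gt hx
  have h1 : DifferentiableAt ℝ (fun y : Pt 4 => y 0) x := by fun_prop
  unfold gb g4 dg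
  split_ifs
  · exact (h1.inv h0).pow 6
  · fun_prop
  · fun_prop
  · fun_prop
  · fun_prop

theorem pd_mul {n : ℕ} (i : Fin n) {f h : Pt n → ℝ} {x : Pt n} (hf : DifferentiableAt ℝ f x)
    (hh : DifferentiableAt ℝ h x) :
    pd i (fun y => f y * h y) x = pd i f x * h x + f x * pd i h x := by
  unfold pd
  rw [fderiv_fun_mul hf hh]
  simp
  ring

theorem pd_sub {n : ℕ} (i : Fin n) {f h : Pt n → ℝ} {x : Pt n} (hf : DifferentiableAt ℝ f x)
    (hh : DifferentiableAt ℝ h x) :
    pd i (fun y => f y - h y) x = pd i f x - pd i h x := by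
  unfold pd
  rw [fderiv_fun_sub hf hh]
  simp

theorem pd_cmul {n : ℕ} (i : Fin n) (c : ℝ) {h : Pt n → ℝ} {x : Pt n}
    (hh : DifferentiableAt ℝ h x) :
    pd i (fun y => c * h y) x = c * pd i h x := by
  unfold pd
  rw [fderiv_const_mul hh]
  simp

theorem diff_om (e : Fin 2) (a b m v : Fin 4) {x : Pt 4} (hx : x ∈ U4) :
    DifferentiableAt ℝ (om e a b m v) x := by
  unfold om
  exact ((diff_gb e b v hx).const_mul _).sub ((diff_gb e b m hx).const_mul _)

theorem pd_om (e : Fin 2) (i a b m v : Fin 4) {x : Pt 4} (hx : x ∈ U4) :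
    pd i (om e a b m v) x = prj e a m * pd i (gb e b v) x - prj e a v * pd i (gb e b m) x := by
  unfold om
  rw [pd_sub i ((diff_gb e b v hx).const_mul _) ((diff_gb e b m hx).const_mul _),
    pd_cmul i _ (diff_gb e b v hx), pd_cmul i _ (diff_gb e b m hx)]

/-- `om` is parallel -/
theorem par_om (e : Fin 2) (i a b m v : Fin 4) {x : Pt 4} (hx : x ∈ U4) :
    pd i (om e a b m v) x + ∑ k, γ a i k x * om e k b m v x - ∑ k, γ k i b x * om e a k m v x
      - ∑ k, γ k i m x * om e a b k v x - ∑ k, γ k i v x * om e a b m k x = 0 := by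
  rw [pd_om e i a b m v hx]
  have h1 := par_g e i b v hx
  have h2 := par_g e i b m hx
  have h3 := par_prj e i a m x
  have h4 := par_prj e i a v x
  simp only [Fin.sum_univ_four] at h1 h2 h3 h4 ⊢
  unfold om
  linear_combination prj e a m * h1 - prj e a v * h2 + gb e b v x * h3 - gb e b m x * h4

theorem covD_cons {n : ℕ} (g : Fin n → Fin n → Pt n → ℝ)
    (T : List (Fin n) → Fin n → Fin n → Fin n → Fin n → Pt n → ℝ) (i : Fin n) (L : List (Fin n))
    (a b m v : Fin n) (x : Pt n) : covD g T (i :: L) a b m v x = pd i (T L a b m v) x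
      + ∑ k, Chr g a i k x * T L k b m v x
      - ∑ k, Chr g k i b x * T L a k m v x
      - ∑ k, Chr g k i m x * T L a b k v x
      - ∑ k, Chr g k i v x * T L a b m k x
      - ∑ j : Fin L.length, ∑ k, Chr g k i (L.get j) x * T (L.set j k) a b m v x := rfl

/-- the covariant derivative of `S ⊗ om` -/
theorem covD_om (e : Fin 2) (T : List (Fin 4) → Fin 4 → Fin 4 → Fin 4 → Fin 4 → Pt 4 → ℝ)
    (S : List (Fin 4) → Pt 4 → ℝ) (r : ℕ)
    (hT : ∀ L : List (Fin 4), L.length = r → ∀ a b m v, ∀ x ∈ U4,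
      T L a b m v x = S L x * om e a b m v x)
    (hS : ∀ L : List (Fin 4), L.length = r → ∀ x ∈ U4, DifferentiableAt ℝ (S L) x)
    (i : Fin 4) (L : List (Fin 4)) (hL : L.length = r) (a b m v : Fin 4) {x : Pt 4} (hx : x ∈ U4) :
    covD g4 T (i :: L) a b m v x = (pd i (S L) x
      - ∑ j : Fin L.length, ∑ k, γ k i (L.get j) x * S (L.set j k) x) * om e a b m v x := by
  rw [covD_cons]
  have h1 : pd i (T L a b m v) x = pd i (S L) x * om e a b m v x + S L x * pd i (om e a b m v) x := by
    rw [pd_congr isOpen_U4 i (fun y hy => hT L hL a b m v y hy) hx,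
      pd_mul i (hS L hL x hx) (diff_om e a b m v hx)]
  have h2 : ∀ j : Fin L.length, ∀ k : Fin 4, T (L.set j k) a b m v x
      = S (L.set j k) x * om e a b m v x := by
    intro j k
    exact hT _ (by rw [List.length_set, hL]) a b m v x hx
  rw [h1]
  simp only [chr_eq _ _ _ hx, hT L hL _ _ _ _ x hx, h2]
  have h3 := par_om e i a b m v hx
  have h4 : ∑ j : Fin L.length, ∑ k, γ k i (L.get j) x * (S (L.set j k) x * om e a b m v x)
      = (∑ j : Fin L.length, ∑ k, γ k i (L.get j) x * S (L.set j k) x) * om e a b m v x := by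
    rw [Finset.sum_mul]
    refine Finset.sum_congr rfl fun j _ => ?_
    rw [Finset.sum_mul]
    refine Finset.sum_congr rfl fun k _ => ?_
    ring
  rw [h4]
  simp only [Fin.sum_univ_four] at h3 ⊢
  linear_combination S L x * h3

end Pool.Agent.R710.KS
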