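import Mathlib
import Pool.Agent.R710.KS.Ex2

set_option autoImplicit false

namespace Pool.Agent.R710.KS

open scoped ContDiff

noncomputable def S1 (L : List (Fin 4)) (x : Pt 4) : ℝ :=
  if L = [0] then 24 * ((x 0)⁻¹) ^ (2 + 1) else 0

noncomputable def S2 (L : List (Fin 4)) (x : Pt 4) : ℝ :=
  if L = [0, 0] then (-72) * ((x 0)⁻¹) ^ (3 + 1)
  else if L = [1, 1] then (-72) * ((x 0)⁻¹) ^ (9 + 1) else 0

noncomputable def S3 (L : List (Fin 4)) (x : Pt 4) : ℝ :=
  if L = [0, 0, 0] then 288 * ((x 0)⁻¹) ^ 5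
  else if L = [0, 1, 1] then 288 * ((x 0)⁻¹) ^ 11 else 0

theorem diff_inv (c : ℝ) (k : ℕ) {x : Pt 4} (hx : x ∈ U4) :
    DifferentiableAt ℝ (fun y : Pt 4 => c * ((y 0)⁻¹) ^ k) x := by
  have h0 : x 0 ≠ 0 := ne_of_gt hx
  have h1 : DifferentiableAt ℝ (fun y : Pt 4 => y 0) x := by fun_prop
  exact ((h1.inv h0).pow k).const_mul c

theorem diff_KK {x : Pt 4} (hx : x ∈ U4) : DifferentiableAt ℝ KK x := diff_inv (-12) 2 hx

theorem pd_KK (i : Fin 4) {x : Pt 4} (hx : x ∈ U4) : pd i KK x = S1 [i] x := by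
  have : KK = fun y => (-12) * ((y 0)⁻¹) ^ (1 + 1) := by
    funext y
    rfl
  rw [this, pd_inv i 1 (-12) hx]
  unfold S1
  by_cases hi : i = 0
  · simp [hi]
    ring
  · simp [hi]

theorem nabla_one (L : List (Fin 4)) (hL : L.length = 1) (a b m v : Fin 4) (x : Pt 4)
    (hx : x ∈ U4) : nablaR g4 1 L a b m v x = S1 L x * om 0 a b m v x := by
  obtain ⟨i, rfl⟩ := List.length_eq_one_iff.1 hL
  have h0 : nablaR g4 1 [i] a b m v x = covD g4 (fun _ => Riem g4) [i] a b m v x := rfl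
  rw [h0, covD_cons]
  have h1 : pd i (Riem g4 a b m v) x = S1 [i] x * om 0 a b m v x + KK x * pd i (om 0 a b m v) x
      - pd i (om 1 a b m v) x := by
    rw [pd_congr isOpen_U4 i (fun y hy => riem_eq a b m v hy) hx,
      pd_sub i ((diff_KK hx).fun_mul (diff_om 0 a b m v hx)) (diff_om 1 a b m v hx),
      pd_mul i (diff_KK hx) (diff_om 0 a b m v hx), pd_KK i hx]
  rw [h1]
  simp only [chr_eq _ _ _ hx, riem_eq _ _ _ _ hx]
  have h2 := par_om 0 i a b m v hx
  have h3 := par_om 1 i a b m v hx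
  simp only [Fin.sum_univ_four, List.length_nil, Finset.univ_eq_empty, Finset.sum_empty] at h2 h3 ⊢
  linear_combination KK x * h2 - h3

theorem diff_S1 (L : List (Fin 4)) {x : Pt 4} (hx : x ∈ U4) : DifferentiableAt ℝ (S1 L) x := by
  unfold S1
  split_ifs
  · exact diff_inv _ _ hx
  · fun_prop

theorem diff_S2 (L : List (Fin 4)) {x : Pt 4} (hx : x ∈ U4) : DifferentiableAt ℝ (S2 L) x := by
  unfold S2
  split_ifs
  · exact diff_inv _ _ hx
  · exact diff_inv _ _ hx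
  · fun_prop

theorem pd_S1 (i j : Fin 4) {x : Pt 4} (hx : x ∈ U4) :
    pd i (S1 [j]) x = if i = 0 ∧ j = 0 then -72 * ((x 0)⁻¹) ^ 4 else 0 := by
  by_cases hj : j = 0
  · subst hj
    have : S1 [0] = fun y => 24 * ((y 0)⁻¹) ^ (2 + 1) := by
      funext y
      simp [S1]
    rw [this, pd_inv i 2 24 hx]
    by_cases hi : i = 0
    · simp [hi]
      ring
    · simp [hi]
  · have : S1 [j] = fun _ => 0 := by
      funext y
      simp [S1, hj]
    rw [this, pd_const]
    simp [hj]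

theorem pd_S2 (i j k : Fin 4) {x : Pt 4} (hx : x ∈ U4) :
    pd i (S2 [j, k]) x = if i = 0 ∧ j = 0 ∧ k = 0 then 288 * ((x 0)⁻¹) ^ 5
      else if i = 0 ∧ j = 1 ∧ k = 1 then 720 * ((x 0)⁻¹) ^ 11 else 0 := by
  by_cases h1 : j = 0 ∧ k = 0
  · obtain ⟨rfl, rfl⟩ := h1
    have : S2 [0, 0] = fun y => (-72) * ((y 0)⁻¹) ^ (3 + 1) := by
      funext y
      simp [S2]
    rw [this, pd_inv i 3 (-72) hx]
    by_cases hi : i = 0
    · simp [hi]
      ring
    · simp [hi]
  · by_cases h2 : j = 1 ∧ k = 1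
    · obtain ⟨rfl, rfl⟩ := h2
      have : S2 [1, 1] = fun y => (-72) * ((y 0)⁻¹) ^ (9 + 1) := by
        funext y
        simp [S2]
      rw [this, pd_inv i 9 (-72) hx]
      by_cases hi : i = 0
      · simp [hi]
        ring
      · simp [hi]
    · have : S2 [j, k] = fun _ => 0 := by
        funext y
        simp only [S2, List.cons.injEq, and_true]
        rw [if_neg h1, if_neg h2]
      rw [this, pd_const, if_neg (fun h => h1 h.2), if_neg (fun h => h2 h.2)]

set_option maxHeartbeats 0 in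
theorem nabla_two (L : List (Fin 4)) (hL : L.length = 2) (a b m v : Fin 4) (x : Pt 4)
    (hx : x ∈ U4) : nablaR g4 2 L a b m v x = S2 L x * om 0 a b m v x := by
  obtain ⟨i, j, rfl⟩ := List.length_eq_two.1 hL
  have h0 : nablaR g4 2 [i, j] a b m v x = covD g4 (nablaR g4 1) [i, j] a b m v x := rfl
  rw [h0, covD_om 0 (nablaR g4 1) S1 1 nabla_one (fun L _ x hx => diff_S1 L hx) i [j] rfl
    a b m v hx, pd_S1 i j hx]
  congr 1
  have h1 : (x 0) ≠ 0 := ne_of_gt hx
  simp only [List.length_cons, List.length_nil, Fin.sum_univ_four]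
  fin_cases i <;> fin_cases j <;> simp [S1, S2, γ] <;> ring

set_option maxHeartbeats 0 in
theorem nabla_three (L : List (Fin 4)) (hL : L.length = 3) (a b m v : Fin 4) (x : Pt 4)
    (hx : x ∈ U4) : nablaR g4 3 L a b m v x = S3 L x * om 0 a b m v x := by
  obtain ⟨i, j, k, rfl⟩ := List.length_eq_three.1 hL
  have h0 : nablaR g4 3 [i, j, k] a b m v x = covD g4 (nablaR g4 2) [i, j, k] a b m v x := rfl
  rw [h0, covD_om 0 (nablaR g4 2) S2 2 nabla_two (fun L _ x hx => diff_S2 L hx) i [j, k] rfl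
    a b m v hx, pd_S2 i j k hx]
  congr 1
  have h1 : (x 0) ≠ 0 := ne_of_gt hx
  have h2 : ∀ F : Fin [j, k].length → ℝ, ∑ l, F l = F ⟨0, by simp⟩ + F ⟨1, by simp⟩ :=
    fun F => Fin.sum_univ_two F
  rw [h2]
  simp only [Fin.sum_univ_four]
  fin_cases i <;> fin_cases j <;> fin_cases k <;> simp [S2, S3, γ] <;> ring

end Pool.Agent.R710.KS
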