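import Mathlib
import Pool.Agent.R710.KS.Ex3

set_option autoImplicit false

namespace Pool.Agent.R710.KS

open scoped ContDiff

theorem connected_U4 : IsConnected U4 := by
  refine ⟨⟨fun _ => 1, by simp [U4]⟩, ?_⟩
  have h : Convex ℝ U4 := by
    intro x hx y hy a b ha hb hab
    have hx' : 0 < x 0 := hx
    have hy' : 0 < y 0 := hy
    change 0 < (a • x + b • y) 0
    simp only [Pi.add_apply, Pi.smul_apply, smul_eq_mul]
    rcases ha.eq_or_lt with rfl | ha'
    · have : b = 1 := by linarith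
      subst this
      linarith
    · have h1 : 0 < a * x 0 := mul_pos ha' hx'
      have h2 : 0 ≤ b * y 0 := mul_nonneg hb hy'.le
      linarith
  exact h.isPreconnected

theorem smooth_inv (c : ℝ) (k : ℕ) : ContDiffOn ℝ ∞ (fun y : Pt 4 => c * ((y 0)⁻¹) ^ k) U4 := by
  have h1 : ContDiffOn ℝ ∞ (fun y : Pt 4 => y 0) U4 := (contDiff_apply ℝ ℝ (0 : Fin 4)).contDiffOn
  exact contDiffOn_const.mul ((h1.inv fun x hx => ne_of_gt hx).pow k)

theorem smooth_g (i j : Fin 4) : ContDiffOn ℝ ∞ (g4 i j) U4 := by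
  by_cases h : i = j
  · subst h
    have h0 : g4 i i = dg i := by
      funext y
      simp [g4]
    rw [h0]
    by_cases h1 : i = 1
    · have h2 : dg i = fun y => 1 * ((y 0)⁻¹) ^ 6 := by
        funext y
        simp [dg, h1]
      rw [h2]
      exact smooth_inv 1 6
    · by_cases h3 : i = 3
      · have h2 : dg i = fun y => Real.exp (2 * y 2) := by
          funext y
          simp [dg, h3]
        rw [h2]
        have h4 : ContDiff ℝ ∞ (fun y : Pt 4 => y 2) := contDiff_apply ℝ ℝ (2 : Fin 4)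
        exact ((contDiff_const.mul h4).exp).contDiffOn
      · have h2 : dg i = fun _ => 1 := by
          funext y
          simp [dg, h1, h3]
        rw [h2]
        exact contDiffOn_const
  · have h0 : g4 i j = fun _ => 0 := by
      funext y
      simp [g4, h]
    rw [h0]
    exact contDiffOn_const

theorem riemannian : IsRiemannian U4 g4 := by
  refine ⟨smooth_g, ?_, ?_⟩
  · intro i j x _
    unfold g4
    by_cases h : i = j
    · subst h
      rfl
    · rw [if_neg h, if_neg (Ne.symm h)]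
  · intro x hx v hv
    have h1 : ∑ i, ∑ j, g4 i j x * v i * v j = ∑ i, dg i x * v i ^ 2 := by
      refine Finset.sum_congr rfl fun i _ => ?_
      rw [Finset.sum_eq_single i]
      · simp [g4]
        ring
      · intro j _ hj
        simp [g4, Ne.symm hj]
      · simp
    rw [h1]
    obtain ⟨i, hi⟩ : ∃ i, v i ≠ 0 := Function.ne_iff.1 hv
    refine Finset.sum_pos' (fun j _ => mul_nonneg (dg_pos j hx).le (sq_nonneg _)) ⟨i, Finset.mem_univ _, ?_⟩
    exact mul_pos (dg_pos i hx) (by positivity)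

/-- the one form `(4 / s) ds` -/
noncomputable def tt (i : Fin 4) (x : Pt 4) : ℝ := if i = 0 then 4 * ((x 0)⁻¹) ^ 1 else 0

theorem smooth_tt (i : Fin 4) : ContDiffOn ℝ ∞ (tt i) U4 := by
  by_cases h : i = 0
  · have : tt i = fun x => 4 * ((x 0)⁻¹) ^ 1 := by
      funext x
      simp [tt, h]
    rw [this]
    exact smooth_inv 4 1
  · have : tt i = fun _ => 0 := by
      funext x
      simp [tt, h]
    rw [this]
    exact contDiffOn_const

theorem S_eq (i j k : Fin 4) (x : Pt 4) : S3 [i, j, k] x + tt i x * S2 [j, k] x = 0 := by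
  unfold S3 S2 tt
  by_cases hi : i = 0
  · subst hi
    simp only [List.cons.injEq, true_and, and_true, if_true]
    by_cases h1 : j = 0 ∧ k = 0
    · rw [if_pos h1, if_pos h1]
      ring
    · rw [if_neg h1, if_neg h1]
      by_cases h2 : j = 1 ∧ k = 1
      · rw [if_pos h2, if_pos h2]
        ring
      · rw [if_neg h2, if_neg h2]
        ring
  · simp [hi]

theorem main_eq (i j k a b c d : Fin 4) {x : Pt 4} (hx : x ∈ U4) :
    nablaR g4 3 [i, j, k] a b c d x + tt i x * nablaR g4 2 [j, k] a b c d x = 0 := by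
  rw [nabla_three _ rfl _ _ _ _ x hx, nabla_two _ rfl _ _ _ _ x hx]
  have := S_eq i j k x
  linear_combination om 0 a b c d x * this

theorem ks_three : IsKS U4 g4 3 := by
  refine ⟨fun m L x => if m = 1 then tt (L.headD 0) x else 0, ?_, ?_⟩
  · intro m _ L _
    by_cases h : m = 1
    · simp only [h, if_true]
      exact smooth_tt _
    · simp only [h, if_false]
      exact contDiffOn_const
  · intro L hL a b c d x hx
    obtain ⟨i, j, k, rfl⟩ := List.length_eq_three.1 hL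
    have h1 : Finset.Icc 1 3 = {1, 2, 3} := rfl
    rw [h1]
    simp only [Finset.sum_insert, Finset.sum_singleton, Finset.mem_insert, Finset.mem_singleton]
    simp
    exact main_eq i j k a b c d hx

theorem om0_ne {x : Pt 4} (hx : x ∈ U4) : om 0 0 1 0 1 x ≠ 0 := by
  have h0 : x 0 ≠ 0 := ne_of_gt hx
  simp [om, prj, gb, blk, g4, dg, h0]

theorem om0_zero (x : Pt 4) : om 0 2 3 2 3 x = 0 := by
  simp [om, prj, blk]

theorem om1_ne (x : Pt 4) : om 1 2 3 2 3 x ≠ 0 := by
  simp [om, prj, gb, blk, g4, dg]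

theorem om1_zero (x : Pt 4) : om 1 0 1 0 1 x = 0 := by
  simp [om, prj, blk]

theorem nabla_zero (L : List (Fin 4)) (a b c d : Fin 4) (x : Pt 4) :
    nablaR g4 0 L a b c d x = Riem g4 a b c d x := rfl

theorem not_ks_one (V : Set (Pt 4)) (hV : V ⊆ U4) (hne : V.Nonempty) : ¬ IsKS V g4 1 := by
  rintro ⟨t, -, h⟩
  obtain ⟨x, hx⟩ := hne
  have hx4 := hV hx
  have h0 : x 0 ≠ 0 := ne_of_gt hx4
  have h1 := h [0] rfl 2 3 2 3 x hx
  have h2 := h [0] rfl 0 1 0 1 x hx
  simp only [Finset.Icc_self, Finset.sum_singleton, Nat.sub_self, nabla_zero,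
    nabla_one _ (rfl : ([0] : List (Fin 4)).length = 1) _ _ _ _ x hx4,
    riem_eq _ _ _ _ hx4, om0_zero, om1_zero, mul_zero, zero_add, zero_sub, sub_zero] at h1 h2
  have h3 : t 1 (List.take 1 [0]) x = 0 := by
    rcases mul_eq_zero.1 h1 with h | h
    · exact h
    · exact absurd (neg_eq_zero.1 h) (om1_ne x)
  rw [h3, zero_mul, add_zero] at h2
  have h4 : S1 [0] x ≠ 0 := by
    simp [S1, h0]
  exact mul_ne_zero h4 (om0_ne hx4) h2

theorem not_ks_two (V : Set (Pt 4)) (hV : V ⊆ U4) (hne : V.Nonempty) : ¬ IsKS V g4 2 := by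
  rintro ⟨t, -, h⟩
  obtain ⟨x, hx⟩ := hne
  have hx4 := hV hx
  have h0 : x 0 ≠ 0 := ne_of_gt hx4
  have h1 := h [1, 1] rfl 2 3 2 3 x hx
  have h2 := h [1, 1] rfl 0 1 0 1 x hx
  have hI : Finset.Icc 1 2 = {1, 2} := rfl
  have e1 : ∀ a b c d, nablaR g4 (2 - 1) (List.drop 1 [1, 1]) a b c d x = S1 [1] x * om 0 a b c d x :=
    fun a b c d => nabla_one [1] rfl a b c d x hx4
  have e2 : ∀ a b c d, nablaR g4 2 [1, 1] a b c d x = S2 [1, 1] x * om 0 a b c d x :=
    fun a b c d => nabla_two [1, 1] rfl a b c d x hx4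
  have e3 : ∀ a b c d, nablaR g4 (2 - 2) (List.drop 2 [1, 1]) a b c d x = Riem g4 a b c d x :=
    fun a b c d => rfl
  have hS : S1 [1] x = 0 := by simp [S1]
  rw [hI, Finset.sum_pair (by norm_num), e1, e2, e3, hS] at h1 h2
  simp only [riem_eq _ _ _ _ hx4, om0_zero, om1_zero, mul_zero, zero_mul, zero_add, zero_sub,
    sub_zero] at h1 h2
  have h3 : t 2 (List.take 2 [1, 1]) x = 0 := by
    rcases mul_eq_zero.1 h1 with h | h
    · exact h
    · exact absurd (neg_eq_zero.1 h) (om1_ne x)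
  rw [h3, zero_mul, add_zero] at h2
  have h4 : S2 [1, 1] x ≠ 0 := by
    simp [S2, h0]
  exact mul_ne_zero h4 (om0_ne hx4) h2

theorem nabla_ne {x : Pt 4} (hx : x ∈ U4) : nablaR g4 1 [0] 0 1 0 1 x ≠ 0 := by
  have h0 : x 0 ≠ 0 := ne_of_gt hx
  rw [nabla_one [0] rfl 0 1 0 1 x hx]
  have h4 : S1 [0] x ≠ 0 := by
    simp [S1, h0]
  exact mul_ne_zero h4 (om0_ne hx)

/-- the curvature has no nullity -/
theorem nondeg {x : Pt 4} (hx : x ∈ U4) (w : Fin 4 → ℝ) (hw : w ≠ 0) :
    ∃ a b v : Fin 4, ∑ m, Riem g4 a b m v x * w m ≠ 0 := by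
  have h0 : x 0 ≠ 0 := ne_of_gt hx
  obtain ⟨i, hi⟩ : ∃ i, w i ≠ 0 := Function.ne_iff.1 hw
  fin_cases i
  · refine ⟨0, 1, 1, ?_⟩
    simp only [riem_eq _ _ _ _ hx, Fin.sum_univ_four]
    simpa [om, prj, gb, blk, g4, dg, KK, h0] using hi
  · refine ⟨1, 0, 0, ?_⟩
    simp only [riem_eq _ _ _ _ hx, Fin.sum_univ_four]
    simpa [om, prj, gb, blk, g4, dg, KK, h0] using hi
  · refine ⟨2, 3, 3, ?_⟩
    simp only [riem_eq _ _ _ _ hx, Fin.sum_univ_four]
    simpa [om, prj, gb, blk, g4, dg, KK, h0] using hi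
  · refine ⟨3, 2, 2, ?_⟩
    simp only [riem_eq _ _ _ _ hx, Fin.sum_univ_four]
    simpa [om, prj, gb, blk, g4, dg, KK, h0] using hi

end Pool.Agent.R710.KS
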